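import Pool.Agent.H.MP_dec24c_co.Defs

set_option autoImplicit false

namespace Pool.Agent.H.MP_dec24c_co

open Finset

universe u

variable {V : Type u} {G : SimpleGraph V}

/-- one allowed step of `G_W` -/
def Step (G : SimpleGraph V) (W : Set V) (x y : V) : Prop := G.Adj x y ∧ ¬ Directed G W y x

theorem hasPath_of {W : Set V} {u v : V} (h : Relation.ReflTransGen (Step G W) u v) :
    HasPath G W u v := by
  classical
  obtain ⟨p, hp⟩ : ∃ p : G.Walk u v, ∀ e ∈ p.darts, ¬ Directed G W e.snd e.fst := by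
    induction h using Relation.ReflTransGen.head_induction_on with
    | refl => exact ⟨SimpleGraph.Walk.nil, by simp⟩
    | head hab _ ih =>
      obtain ⟨p, hp⟩ := ih
      refine ⟨SimpleGraph.Walk.cons hab.1 p, fun e he => ?_⟩
      rw [SimpleGraph.Walk.darts_cons, List.mem_cons] at he
      rcases he with rfl | he
      · exact hab.2
      · exact hp e he
  refine ⟨p.bypass, p.bypass_isPath, fun e he => ?_⟩
  have := hp e (p.darts_bypass_subset he)
  by_cases h' : Directed G W e.fst e.snd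
  · exact Or.inr h'
  · exact Or.inl ⟨h', this⟩

theorem geo_step (hG : G.Connected) {x y : V} {k : ℕ} (h : G.dist x y = k + 1) :
    ∃ x', G.Adj x x' ∧ G.dist x' y = k := by
  obtain ⟨p, hp⟩ := (hG.preconnected x y).exists_walk_length_eq_dist
  cases p with
  | nil => simp at h
  | cons hab q =>
    rename_i b
    refine ⟨b, hab, ?_⟩
    have h1 := SimpleGraph.dist_le q
    have h2 := hG.dist_triangle (u := x) (v := b) (w := y)
    have h3 : G.dist x b = 1 := SimpleGraph.dist_eq_one_iff_adj.2 hab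
    simp only [SimpleGraph.Walk.length_cons] at hp
    omega

theorem ray_of_step (hG : G.Connected) (Inv : V → Prop) (h : V → ℤ)
    (hl : ∀ a b, h b - h a ≤ G.dist a b) (x x' w : V) (hw : Inv w)
    (st : ∀ v, Inv v → ∃ v', G.Adj v v' ∧ h v' = h v + 1 ∧ Inv v' ∧ (v = x → v' = x')) :
    ∃ R : ℕ → V, GeoRay G R ∧ R 0 = w ∧ (∀ i, Inv (R i) ∧ h (R i) = h w + i) ∧
      ∀ i, R i = x → R (i + 1) = x' := by
  choose! f hf using st
  have hI : ∀ i, Inv (f^[i] w) ∧ h (f^[i] w) = h w + i := by
    intro i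
    induction i with
    | zero => simpa using hw
    | succ i ih =>
      rw [Function.iterate_succ_apply']
      obtain ⟨_, h2, h3, _⟩ := hf _ ih.1
      refine ⟨h3, ?_⟩
      rw [h2, ih.2]
      push_cast
      ring
  have hA : ∀ i, G.Adj (f^[i] w) (f^[i + 1] w) := fun i => by
    rw [Function.iterate_succ_apply']
    exact (hf _ (hI i).1).1
  refine ⟨fun i => f^[i] w, ⟨?_, hA, ?_⟩, rfl, hI, ?_⟩
  · intro i j hij
    have h1 := (hI i).2
    have h2 := (hI j).2
    simp only at hij
    rw [hij] at h1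
    omega
  · intro i j hij
    obtain ⟨k, rfl⟩ := Nat.exists_eq_add_of_le hij
    have up : ∀ k, G.dist (f^[i] w) (f^[i + k] w) ≤ k := by
      intro k
      induction k with
      | zero => simp
      | succ k ih =>
        have h2 := hG.dist_triangle (u := f^[i] w) (v := f^[i + k] w) (w := f^[i + k + 1] w)
        have h3 : G.dist _ _ = 1 := SimpleGraph.dist_eq_one_iff_adj.2 (hA (i + k))
        rw [← add_assoc]
        omega
    have h1 := up k
    have h2 := hl (f^[i] w) (f^[i + k] w)
    rw [(hI i).2, (hI (i + k)).2] at h2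
    push_cast at h2
    simp only
    omega
  · intro i hi
    simp only at hi ⊢
    rw [Function.iterate_succ_apply']
    exact (hf _ (hI i).1).2.2.2 hi

theorem potential {P : Type u} (I : Finset P) (A : P → P → ℤ) (hA : ∀ p q, A p q = - A q p)
    (T : ℤ) : ∃ n : P → ℤ, (∀ p ∈ I, T ≤ n p) ∧ ∀ C : Set P,
      (∀ l ∈ I, ∀ j ∈ I, l ∈ C → j ∉ C → 1 ≤ 2 * (n l - n j) + A j l) →
      ∀ l ∈ I, ∀ j ∈ I, l ∈ C → j ∉ C → 2 * (n l - n j) + A j l ≤ 1 := by
  classical
  let Φ : (P → ℤ) → ℕ := fun n => ∑ z ∈ I ×ˢ I, (2 * (n z.2 - n z.1) + A z.1 z.2).natAbs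
  obtain ⟨n, hn⟩ : sInf (Set.range Φ) ∈ Set.range Φ := Nat.sInf_mem ⟨_, fun _ => 0, rfl⟩
  obtain ⟨B, hB⟩ := (I.finite_toSet.image n).bddBelow
  refine ⟨fun p => n p + (T - B), fun p hp => ?_, fun C hC l hl j hj hlC hjC => ?_⟩
  · have : B ≤ n p := hB ⟨p, hp, rfl⟩
    simp only
    omega
  · by_contra! hc
    simp only at hC hc
    have h1 : Φ n ≤ Φ (fun q => if q ∈ C then n q - 1 else n q) := by
      rw [hn]
      exact Nat.sInf_le ⟨fun q => if q ∈ C then n q - 1 else n q, rfl⟩
    refine absurd h1 (not_le.2 (sum_lt_sum ?_ ⟨(j, l), mem_product.2 ⟨hj, hl⟩, ?_⟩))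
    · rintro ⟨p, q⟩ hz
      obtain ⟨hp, hq⟩ := mem_product.1 hz
      simp only at hp hq ⊢
      by_cases a : p ∈ C <;> by_cases b : q ∈ C <;> simp only [a, b, if_true, if_false]
      · omega
      · have := hC p hp q hq a b
        have := hA p q
        omega
      · have := hC q hq p hp b a
        omega
      · omega
    · simp only [hlC, hjC, if_true, if_false]
      omega

end Pool.Agent.H.MP_dec24c_co
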