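import Pool.Agent.H.MP_dec24c_co.A

set_option autoImplicit false

namespace Pool.Agent.H.MP_dec24c_co

open Finset

universe u

variable {V : Type u} {G : SimpleGraph V} {ι : Type u} [Fintype ι] [Nonempty ι]

/-- distance coordinates -/
noncomputable def ph (G : SimpleGraph V) (c : ι → V) (v : V) (s : ι) : ℤ := G.dist (c s) v

/-- profile -/
noncomputable def pr (G : SimpleGraph V) (c : ι → V) (o : ι) (v : V) : ι → ℤ :=
  fun s => ph G c v s - ph G c v o

/-- largest coordinate difference -/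
noncomputable def mx (p q : ι → ℤ) : ℤ := univ.sup' univ_nonempty fun s => q s - p s

omit [Fintype ι] [Nonempty ι] in
theorem lip (hG : G.Connected) (c : ι → V) (a b : V) (s : ι) :
    ph G c b s - ph G c a s ≤ G.dist a b := by
  have := hG.dist_triangle (u := c s) (v := a) (w := b)
  unfold ph
  omega

omit [Fintype ι] [Nonempty ι] in
theorem lip' (hG : G.Connected) (c : ι → V) (a b : V) (s : ι) :
    ph G c a s - ph G c b s ≤ G.dist a b := by
  have := lip hG c b a s
  rwa [SimpleGraph.dist_comm] at this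

omit [Fintype ι] [Nonempty ι] in
theorem lip1 (hG : G.Connected) (c : ι → V) {a b : V} (h : G.Adj a b) (s : ι) :
    ph G c b s - ph G c a s ≤ 1 ∧ ph G c a s - ph G c b s ≤ 1 := by
  have h1 := lip hG c a b s
  have h2 := lip' hG c a b s
  rw [SimpleGraph.dist_eq_one_iff_adj.2 h] at h1 h2
  exact ⟨h1, h2⟩

/-- the family `c` strongly resolves `G` -/
def Res (G : SimpleGraph V) (c : ι → V) : Prop :=
  ∀ x y, ∃ s, ph G c y s - ph G c x s = G.dist x y ∨ ph G c x s - ph G c y s = G.dist x y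

theorem ahead_iff (hG : G.Connected) {c : ι → V} (hr : Res G c) (o : ι) (x y : V) :
    (∃ s, ph G c y s = ph G c x s + G.dist x y) ↔
      0 ≤ 2 * (ph G c y o - ph G c x o) + (mx (pr G c o x) (pr G c o y) -
        mx (pr G c o y) (pr G c o x)) := by
  have le1 : ∀ (a b : V) (s : ι), ph G c b s - ph G c a s ≤
      ph G c b o - ph G c a o + mx (pr G c o a) (pr G c o b) := fun a b s => by
    have : pr G c o b s - pr G c o a s ≤ mx (pr G c o a) (pr G c o b) :=
      le_sup' (fun s => pr G c o b s - pr G c o a s) (mem_univ s)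
    unfold pr at this ⊢
    omega
  have ex : ∀ a b : V, ∃ s, ph G c b s - ph G c a s =
      ph G c b o - ph G c a o + mx (pr G c o a) (pr G c o b) := fun a b => by
    obtain ⟨s, -, hs⟩ := exists_mem_eq_sup' (univ_nonempty (α := ι))
      (fun s => pr G c o b s - pr G c o a s)
    refine ⟨s, ?_⟩
    unfold mx
    rw [hs]
    unfold pr
    omega
  constructor
  · rintro ⟨s, hs⟩
    obtain ⟨t, ht⟩ := ex y x
    have := le1 x y s
    have := lip' hG c x y t
    omega
  · intro h
    obtain ⟨t, ht⟩ := ex x y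
    refine ⟨t, ?_⟩
    have := lip hG c x y t
    obtain ⟨s, hs | hs⟩ := hr x y
    · have := le1 x y s
      omega
    · have := le1 y x s
      omega

theorem exists_D (hG : G.Connected) (c : ι → V) (o : ι) :
    ∃ D : ℤ, ∀ v s, -D ≤ pr G c o v s ∧ pr G c o v s ≤ D := by
  obtain ⟨B, hB⟩ := (Set.finite_range fun s => (G.dist (c s) (c o) : ℤ)).bddAbove
  refine ⟨B, fun v s => ?_⟩
  have h0 : (G.dist (c s) (c o) : ℤ) ≤ B := hB ⟨s, rfl⟩
  have h1 := hG.dist_triangle (u := c s) (v := c o) (w := v)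
  have h2 := hG.dist_triangle (u := c o) (v := c s) (w := v)
  rw [SimpleGraph.dist_comm (u := c o) (v := c s)] at h2
  unfold pr ph
  omega

theorem fin_pr (hG : G.Connected) (c : ι → V) (o : ι) : (Set.range (pr G c o)).Finite := by
  obtain ⟨D, hD⟩ := exists_D hG c o
  refine (Set.Finite.pi' fun _ : ι => Set.finite_Icc (-D) D).subset ?_
  rintro _ ⟨v, rfl⟩ s
  exact hD v s

theorem exists_rho (hG : G.Connected) (c : ι → V) (o : ι) : ∃ ρ : ℤ, ∀ v, ρ < ph G c v o →
    (∃ y, pr G c o y = pr G c o v ∧ ph G c y o < ph G c v o) ∧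
      ∀ N, ∃ y, pr G c o y = pr G c o v ∧ N < ph G c y o := by
  have key : ∀ p : ι → ℤ, ∃ r : ℤ, ∀ v, pr G c o v = p → r < ph G c v o →
      (∃ y, pr G c o y = p ∧ ph G c y o < ph G c v o) ∧
        ∀ N, ∃ y, pr G c o y = p ∧ N < ph G c y o := fun p => by
    by_cases h : ∀ N, ∃ y, pr G c o y = p ∧ N < ph G c y o
    · obtain ⟨y, hy, -⟩ := h 0
      exact ⟨ph G c y o, fun v _ hv => ⟨⟨y, hy, hv⟩, h⟩⟩
    · push Not at h
      obtain ⟨N, hN⟩ := h
      exact ⟨N, fun v hv hlt => absurd (hN v hv) (not_le.2 hlt)⟩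
  choose r hr using key
  obtain ⟨B, hB⟩ := ((fin_pr hG c o).image r).bddAbove
  refine ⟨B, fun v hv => hr _ v rfl (lt_of_le_of_lt (hB ⟨_, ⟨v, rfl⟩, rfl⟩) hv)⟩

omit [Fintype ι] [Nonempty ι] in
theorem same (c : ι → V) (o : ι) {x y : V} (h : pr G c o x = pr G c o y) (s : ι) :
    ph G c y s - ph G c x s = ph G c y o - ph G c x o := by
  have := congrFun h s
  unfold pr at this
  omega

omit [Fintype ι] [Nonempty ι] in
theorem same_dist {c : ι → V} (hr : Res G c) (o : ι) {x y : V} (h : pr G c o x = pr G c o y)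
    (hle : ph G c x o ≤ ph G c y o) : (G.dist x y : ℤ) = ph G c y o - ph G c x o := by
  obtain ⟨s, hs | hs⟩ := hr x y <;> have := same c o h s <;> omega

omit [Fintype ι] [Nonempty ι] in
theorem succ_ex (hG : G.Connected) {c : ι → V} (hr : Res G c) (o : ι) {x y : V}
    (h : pr G c o y = pr G c o x) (hlt : ph G c x o < ph G c y o) :
    ∃ x', G.Adj x x' ∧ ∀ s, ph G c x' s = ph G c x s + 1 := by
  have hd := same_dist hr o h.symm hlt.le
  obtain ⟨x', ha, hx'⟩ := geo_step hG (x := x) (y := y) (k := G.dist x y - 1) (by omega)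
  refine ⟨x', ha, fun s => ?_⟩
  have := lip hG c x' y s
  have := lip1 hG c ha s
  have := same c o h s
  omega

omit [Fintype ι] [Nonempty ι] in
theorem pred_ex (hG : G.Connected) {c : ι → V} (hr : Res G c) (o : ι) {x y : V}
    (h : pr G c o y = pr G c o x) (hlt : ph G c y o < ph G c x o) :
    ∃ x', G.Adj x x' ∧ ∀ s, ph G c x' s = ph G c x s - 1 := by
  have hd := same_dist hr o h hlt.le
  rw [SimpleGraph.dist_comm] at hd
  obtain ⟨x', ha, hx'⟩ := geo_step hG (x := x) (y := y) (k := G.dist x y - 1) (by omega)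
  refine ⟨x', ha, fun s => ?_⟩
  have := lip' hG c x' y s
  have := lip1 hG c ha s
  have := same c o h s
  omega

theorem on_ray (hG : G.Connected) {c : ι → V} (hr : Res G c) {R : ℕ → V} (hR : GeoRay G R)
    (i : ℕ) : ∃ s, ph G c (R i) s = ph G c (R 0) s + G.dist (R 0) (R i) := by
  obtain ⟨B, hB⟩ := (Set.finite_range fun s => G.dist (c s) (R 0)).bddAbove
  have h0 := hR.2.2 0 (i + B + 1) (by omega)
  have h1 := hR.2.2 i (i + B + 1) (by omega)
  have h2 := hR.2.2 0 i (by omega)
  obtain ⟨s, hs | hs⟩ := hr (R 0) (R (i + B + 1))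
  · refine ⟨s, ?_⟩
    have := lip hG c (R i) (R (i + B + 1)) s
    have := lip hG c (R 0) (R i) s
    omega
  · have : G.dist (c s) (R 0) ≤ B := hB ⟨s, rfl⟩
    unfold ph at hs
    omega

omit [Fintype ι] [Nonempty ι] in
theorem traverse (hG : G.Connected) {c : ι → V} (o : ι) (ρ : ℤ) {W : Set V}
    (hs : ∀ v, ρ < ph G c v o → ∃ x', G.Adj v x' ∧ ∀ s, ph G c x' s = ph G c v s + 1)
    {w x x' : V} (hw : w ∈ W) (s : ι) (hx : ph G c x s = ph G c w s + G.dist w x)
    (ha : G.Adj x x') (hx' : ph G c x' s = ph G c x s + 1) (hf : ρ < ph G c x' o) :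
    Step G W x x' := by
  obtain ⟨R, hR, h0, hI, hxx⟩ := ray_of_step hG
    (fun v => ((G.dist v x : ℤ) = ph G c x s - ph G c v s) ∨
      (ph G c x s < ph G c v s ∧ ρ < ph G c v o)) (fun v => ph G c v s)
    (fun a b => lip hG c a b s) x x' w (Or.inl (by omega)) (by
      rintro v (hv | hv)
      · by_cases e : v = x
        · subst e
          exact ⟨x', ha, hx', Or.inr ⟨by omega, hf⟩, fun _ => rfl⟩
        · have hpos : G.dist v x ≠ 0 := fun h0 => e ((hG.dist_eq_zero_iff).1 h0)
          obtain ⟨v', hv', hd⟩ := geo_step hG (x := v) (y := x) (k := G.dist v x - 1) (by omega)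
          have := lip hG c v' x s
          have := lip1 hG c hv' s
          exact ⟨v', hv', by omega, Or.inl (by omega), fun h => absurd h e⟩
      · obtain ⟨v', hv', h1⟩ := hs v hv.2
        have h2 := h1 s
        have h3 := h1 o
        refine ⟨v', hv', h2, Or.inr ⟨by omega, by omega⟩, fun h => ?_⟩
        rw [h] at hv
        omega)
  have hi : R (G.dist w x) = x := by
    obtain ⟨h1 | h1, h2⟩ := hI (G.dist w x)
    · exact (hG.dist_eq_zero_iff).1 (by omega)
    · omega
  refine ⟨ha, fun hd => ?_⟩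
  obtain ⟨j, hj1, hj2⟩ := hd.2.2 R ⟨hR, h0 ▸ hw⟩ ⟨_, hxx _ hi⟩ ⟨_, hi⟩
  have e1 := hR.1 (hj1.trans (hxx _ hi).symm)
  have e2 := hR.1 (hj2.trans hi.symm)
  omega

end Pool.Agent.H.MP_dec24c_co
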