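import Mathlib

set_option autoImplicit false

namespace Pool.Agent.H.MP_dec24c_co

universe u

variable {V : Type u}

/-- `R 0, R 1, …` is a ray (distinct vertices, consecutive ones adjacent) all of whose subpaths
are shortest paths -/
def GeoRay (G : SimpleGraph V) (R : ℕ → V) : Prop :=
  Function.Injective R ∧ (∀ i, G.Adj (R i) (R (i + 1))) ∧
    ∀ i j, i ≤ j → G.dist (R i) (R j) = j - i

/-- a geodesic ray starting in `W` -/
def WRay (G : SimpleGraph V) (W : Set V) (R : ℕ → V) : Prop := GeoRay G R ∧ R 0 ∈ W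

/-- the edge `uv` is directed `u → v` in `G_W` -/
def Directed (G : SimpleGraph V) (W : Set V) (u v : V) : Prop :=
  G.Adj u v ∧ (∃ R, WRay G W R ∧ u ∈ Set.range R ∧ v ∈ Set.range R) ∧
    ∀ R, WRay G W R → u ∈ Set.range R → v ∈ Set.range R → ∃ i, R i = u ∧ R (i + 1) = v

/-- `G_W` has a `u`-`v` path: each step uses an undirected edge or a forward directed edge -/
def HasPath (G : SimpleGraph V) (W : Set V) (u v : V) : Prop :=
  ∃ p : G.Walk u v, p.IsPath ∧ ∀ e ∈ p.darts,
    (¬ Directed G W e.fst e.snd ∧ ¬ Directed G W e.snd e.fst) ∨ Directed G W e.fst e.snd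

/-- a bad pair of `G_W` -/
def BadPair (G : SimpleGraph V) (W : Set V) (u v : V) : Prop :=
  u ≠ v ∧ ¬ HasPath G W u v ∧ ¬ HasPath G W v u

/-- every pair of distinct vertices is strongly resolved by a vertex of `S` -/
def StrongResolving (G : SimpleGraph V) (S : Set V) : Prop :=
  ∀ u v : V, u ≠ v → ∃ w ∈ S,
    G.dist w v = G.dist w u + G.dist u v ∨ G.dist w u = G.dist w v + G.dist v u

end Pool.Agent.H.MP_dec24c_co
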